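import Pool.Agent.Lib.MP_52661b_pr.Sh.Mix
import Pool.Agent.Lib.MP_52661b_pr.Sh.Cst

set_option autoImplicit false

namespace Pool.Agent.Results.MP_52661b_pr.SharpDependence

open Finset

noncomputable section

/-- flip coordinate `i` of `x` -/
def flip {n : ℕ} (x : Fin n → Bool) (i : Fin n) : Fin n → Bool := Function.update x i (!(x i))

/-- the state reached from `x` when coordinate `i` is proposed: the flip is censored if it leaves `A` -/
def propose {n : ℕ} (A : Finset (Fin n → Bool)) (x : A) (i : Fin n) : A :=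
  if h : flip x.1 i ∈ A then ⟨flip x.1 i, h⟩ else x

/-- transition matrix of the lazy censored walk on `A` -/
def censoredWalk {n : ℕ} (A : Finset (Fin n → Bool)) : Matrix A A ℝ := fun x y =>
  (1 / 2) * (if y = x then 1 else 0) +
    (1 / 2) * ∑ i : Fin n, (1 / (n : ℝ)) * (if y = propose A x i then 1 else 0)

/-- total variation distance between the law after `t` steps from `x` and the uniform law on `A` -/
def tvDist {n : ℕ} (A : Finset (Fin n → Bool)) (t : ℕ) (x : A) : ℝ :=
  (1 / 2) * ∑ y : A, |((censoredWalk A) ^ t) x y - 1 / (A.card : ℝ)|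

/-- after `t` steps the walk is mixed (from every starting state) -/
def IsMixed {n : ℕ} (A : Finset (Fin n → Bool)) (t : ℕ) : Prop := ∀ x : A, tvDist A t x ≤ 1 / 4

/-- uniform measure of `A` in the cube -/
def cubeMeasure {n : ℕ} (A : Finset (Fin n → Bool)) : ℝ := (A.card : ℝ) / 2 ^ n

/-- Mixing of the lazy censored walk on monotone sets, with the dependence on the measure of the
set determined up to logarithms:
(1) `n log n` bound with constant `O (log (2 / P(A)) / P(A))` for every nonempty monotone `A`;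
(2) bottleneck sets of measure at least `2 ^ (-k)` that need `n (2 ^ k - 1) / (2 k)` steps;
(3) a constant valid for all monotone sets of measure at least `δ` is at least
`1 / (40 δ log (1 / δ) log log (1 / δ))`;
(4) `n log n` fails as soon as `P(A)` may be as small as `1 / (K log n log log n)`;
(5) no absolute constant is valid for all nonempty monotone sets (negated form of Q1). -/
theorem result :
    (∀ n : ℕ, 2 ≤ n → ∀ A : Finset (Fin n → Bool), A.Nonempty →
      IsUpperSet (A : Set (Fin n → Bool)) → ∀ t : ℕ,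
        16000000 * (Real.log (2 / cubeMeasure A) / cubeMeasure A) * (n * Real.log n) ≤ t →
          IsMixed A t) ∧
    (∀ n k : ℕ, 1 ≤ k → 2 * k ≤ n → ∃ A : Finset (Fin n → Bool), A.Nonempty ∧
      IsUpperSet (A : Set (Fin n → Bool)) ∧ 1 / 2 ^ k ≤ cubeMeasure A ∧
      ∀ t : ℕ, IsMixed A t → (n : ℝ) * (2 ^ k - 1) / (2 * k) ≤ t) ∧
    (∀ δ C : ℝ, 0 < δ → δ ≤ 1 / 4 →
      (∀ n : ℕ, 2 ≤ n → ∀ A : Finset (Fin n → Bool), A.Nonempty →
        IsUpperSet (A : Set (Fin n → Bool)) → δ ≤ cubeMeasure A →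
          ∃ t : ℕ, IsMixed A t ∧ (t : ℝ) ≤ C * n * Real.log n) →
      1 / (40 * δ * Real.log (1 / δ) * Real.log (Real.log (1 / δ))) ≤ C) ∧
    (∀ C : ℝ, ∃ K : ℝ, 0 < K ∧ ∃ N : ℕ, ∀ n : ℕ, N ≤ n →
      ∃ A : Finset (Fin n → Bool), A.Nonempty ∧ IsUpperSet (A : Set (Fin n → Bool)) ∧
        1 / (K * Real.log n * Real.log (Real.log n)) ≤ cubeMeasure A ∧
        ∀ t : ℕ, IsMixed A t → C * n * Real.log n < t) ∧
    ¬ (∃ C : ℝ, ∀ n : ℕ, 2 ≤ n → ∀ A : Finset (Fin n → Bool), A.Nonempty →
      IsUpperSet (A : Set (Fin n → Bool)) →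
        ∃ t : ℕ, IsMixed A t ∧ (t : ℝ) ≤ C * n * Real.log n) := by
  refine ⟨?_, ?_, ?_, ?_, ?_⟩
  · intro n hn A hne hA t ht
    exact Pool.Agent.Lib.MP_52661b_pr.mixing_sharp hn hA hne t ht
  · exact Pool.Agent.Lib.MP_52661b_pr.Bot.lower.1
  · intro δ C h0 h1 h
    exact Pool.Agent.Lib.MP_52661b_pr.Bot.const_lower δ C h0 h1 h
  · exact Pool.Agent.Lib.MP_52661b_pr.Bot.lower.2.1
  · exact Pool.Agent.Lib.MP_52661b_pr.Bot.lower.2.2

end

end Pool.Agent.Results.MP_52661b_pr.SharpDependence
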